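import Pool.Agent.H27Path.Main

/-!
# Invariant consistent path systems on Cayley graphs: the distortion is at most `4 √|G|`

A path is given by the list of its vertices.
-/

set_option autoImplicit false

namespace Pool.Agent.Results.MP_8f0578_co.SqrtUpperBound

/-- `P` is a consistent path system in the graph `Γ`: for all `u`, `v` the list `P u v` consists of the
vertices of a simple path from `u` to `v` in `Γ`, `P v u` is the reversed path, and whenever a portion
`l₂` of `P u v` starts in `a` and ends in `b`, it is the path `P a b`. -/
structure IsConsistentPathSystem {V : Type*} (Γ : SimpleGraph V) (P : V → V → List V) : Prop where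
  chain : ∀ u v, (P u v).IsChain Γ.Adj
  nodup : ∀ u v, (P u v).Nodup
  first : ∀ u v, (P u v).head? = some u
  last : ∀ u v, (P u v).getLast? = some v
  reverse : ∀ u v, P v u = (P u v).reverse
  portion : ∀ u v a b l₁ l₂ l₃, P u v = l₁ ++ l₂ ++ l₃ → l₂.head? = some a →
    l₂.getLast? = some b → P a b = l₂

/-- The Cayley graph: the vertices are the elements of `G`, the edges are `{x, x s}` for `s ∈ S`
(loops are left out). -/
def cayleyGraph {G : Type*} [Group G] (S : Set G) : SimpleGraph G :=
  SimpleGraph.fromRel fun x y => ∃ s ∈ S, y = x * s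

/-- The path system is invariant under left multiplication. -/
def IsInvariant {G : Type*} [Group G] (P : G → G → List G) : Prop :=
  ∀ g x y, P (g * x) (g * y) = (P x y).map fun h => g * h

/-- `ρ` is a metric on `V`. -/
structure IsMetric {V : Type*} (ρ : V → V → ℝ) : Prop where
  eq_zero : ∀ x y, ρ x y = 0 ↔ x = y
  symm : ∀ x y, ρ x y = ρ y x
  triangle : ∀ x y z, ρ x z ≤ ρ x y + ρ y z

/-- The length `∑ ρ (x (i - 1), x i)` of the path with the vertices `x 0, x 1, …`. -/
def pathLength {V : Type*} (ρ : V → V → ℝ) : List V → ℝ
  | [] => 0
  | [_] => 0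
  | x :: y :: l => ρ x y + pathLength ρ (y :: l)

/-- `P` is `α`-metric. -/
def IsAlphaMetric {V : Type*} (P : V → V → List V) (α : ℝ) : Prop :=
  ∃ ρ : V → V → ℝ, IsMetric ρ ∧ ∀ u v, pathLength ρ (P u v) ≤ α * ρ u v

/-- `Δ(P) = inf {α ≥ 1 : P is α-metric}`. -/
noncomputable def Delta {V : Type*} (P : V → V → List V) : ℝ :=
  sInf {α : ℝ | 1 ≤ α ∧ IsAlphaMetric P α}

/-- the letters of a path -/
def letters {G : Type*} [Group G] : List G → List G
  | [] => []
  | [_] => []
  | x :: y :: l => (x⁻¹ * y) :: letters (y :: l)

section

variable {G : Type*} [Group G]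

theorem letters_cons_cons (x y : G) (l : List G) :
    letters (x :: y :: l) = (x⁻¹ * y) :: letters (y :: l) := rfl

theorem letters_map (g : G) (l : List G) : letters (l.map fun h => g * h) = letters l := by
  induction l with
  | nil => rfl
  | cons x l ih =>
    cases l with
    | nil => rfl
    | cons y l =>
      rw [List.map_cons, List.map_cons, letters_cons_cons, letters_cons_cons, ← List.map_cons,
        ih]
      congr 1
      group

theorem letters_append (l : List G) (x : G) (l' : List G) :
    letters (l ++ x :: l') = letters (l ++ [x]) ++ letters (x :: l') := by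
  induction l with
  | nil => simp [letters]
  | cons y l ih =>
    cases l with
    | nil =>
      simp [letters]
    | cons z l =>
      have h1 : letters (y :: z :: l ++ x :: l') = (y⁻¹ * z) :: letters (z :: l ++ x :: l') := rfl
      have h2 : letters (y :: z :: l ++ [x]) = (y⁻¹ * z) :: letters (z :: l ++ [x]) := rfl
      rw [h1, h2, ih]
      rfl

theorem letters_reverse (l : List G) : letters l.reverse = (letters l).reverse.map (·⁻¹) := by
  induction l with
  | nil => rfl
  | cons x l ih =>
    cases l with
    | nil => rfl
    | cons y l =>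
      have h1 : letters (y :: [x]) = [y⁻¹ * x] := rfl
      rw [List.reverse_cons, List.reverse_cons, List.append_assoc]
      rw [List.reverse_cons] at ih
      rw [List.singleton_append, letters_append, ih, h1, letters_cons_cons x y l,
        List.reverse_cons, List.map_append]
      simp

theorem prod_letters (x : G) (l : List G) (y : G) (h : (x :: l).getLast? = some y) :
    (letters (x :: l)).prod = x⁻¹ * y := by
  induction l generalizing x with
  | nil =>
    simp at h
    subst h
    simp [letters]
  | cons z l ih =>
    rw [letters_cons_cons, List.prod_cons, ih z (by simpa using h)]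
    group

theorem pathLength_eq (N : G → ℝ) (l : List G) :
    pathLength (fun x y => N (x⁻¹ * y)) l = ((letters l).map N).sum := by
  induction l with
  | nil => rfl
  | cons x l ih =>
    cases l with
    | nil => simp [letters, pathLength]
    | cons y l =>
      rw [letters_cons_cons, List.map_cons, List.sum_cons, ← ih]
      rfl

/-- splitting a list of letters comes from splitting the list of vertices -/
theorem split_letters (l : List G) (w1 w2 w3 : List G) (hne : l ≠ [])
    (h : letters l = w1 ++ w2 ++ w3) :
    ∃ l1 l2 l3, l = l1 ++ l2 ++ l3 ∧ l2 ≠ [] ∧ letters l2 = w2 := by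
  induction l generalizing w1 with
  | nil => exact absurd rfl hne
  | cons x l ih =>
    cases w1 with
    | nil =>
      -- the portion starts here
      have key : ∀ (w2 : List G) (x : G) (l : List G) (w3 : List G),
          letters (x :: l) = w2 ++ w3 → ∃ l2 l3, x :: l = (x :: l2) ++ l3 ∧
            letters (x :: l2) = w2 := by
        intro w2
        induction w2 with
        | nil =>
          intro x l w3 _
          exact ⟨[], l, by simp, rfl⟩
        | cons a w2 ih2 =>
          intro x l w3 h
          cases l with
          | nil => simp [letters] at h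
          | cons y l =>
            rw [letters_cons_cons, List.cons_append, List.cons.injEq] at h
            obtain ⟨l2, l3, h1, h2⟩ := ih2 y l w3 h.2
            refine ⟨y :: l2, l3, ?_, ?_⟩
            · rw [List.cons_append, ← h1]
            · rw [letters_cons_cons, h.1, h2]
      obtain ⟨l2, l3, h1, h2⟩ := key w2 x l w3 (by simpa using h)
      exact ⟨[], x :: l2, l3, by simpa using h1, by simp, h2⟩
    | cons a w1 =>
      cases l with
      | nil => simp [letters] at h
      | cons y l =>
        rw [letters_cons_cons, List.cons_append, List.cons_append, List.cons.injEq] at h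
        obtain ⟨l1, l2, l3, h1, h2, h3⟩ := ih w1 (by simp) h.2
        exact ⟨x :: l1, l2, l3, by rw [h1]; rfl, h2, h3⟩

end

/-- For every finite group `G`, every subset `S` and every `G`-invariant consistent path system `P` in
the Cayley graph of `G` with respect to `S`, the path system `P` is `4 √|G|`-metric, and
`Δ(P) ≤ 4 √|G|`. -/
theorem result {G : Type*} [Group G] [Fintype G] (S : Set G) (P : G → G → List G)
    (hP : IsConsistentPathSystem (cayleyGraph S) P) (hinv : IsInvariant P) :
    IsAlphaMetric P (4 * Real.sqrt (Fintype.card G)) ∧
      Delta P ≤ 4 * Real.sqrt (Fintype.card G) := by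
  have hne : ∀ u v, P u v ≠ [] := by
    intro u v h
    have := hP.first u v
    rw [h] at this
    simp at this
  have hcons : ∀ u v, ∃ l, P u v = u :: l := by
    intro u v
    have h1 := hP.first u v
    cases h : P u v with
    | nil => exact absurd h (hne u v)
    | cons x l =>
      rw [h] at h1
      simp at h1
      exact ⟨l, by rw [h1]⟩
  have hshift : ∀ u v, letters (P u v) = letters (P 1 (u⁻¹ * v)) := by
    intro u v
    have h1 := hinv u 1 (u⁻¹ * v)
    rw [mul_one, mul_inv_cancel_left] at h1
    rw [h1, letters_map]
  have hprod : ∀ u v, (letters (P u v)).prod = u⁻¹ * v := by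
    intro u v
    obtain ⟨l, hl⟩ := hcons u v
    rw [hl]
    apply prod_letters
    rw [← hl]
    exact hP.last u v
  let W : Pool.Agent.H27Path.Sys G :=
    { word := fun g => letters (P 1 g)
      prod_word := fun g => by rw [hprod, inv_one, one_mul]
      factor_word := by
        intro g w1 w2 w3 h
        obtain ⟨l1, l2, l3, h1, h2, h3⟩ := split_letters _ w1 w2 w3 (hne 1 g) h
        obtain ⟨a, ha⟩ : ∃ a, l2.head? = some a := by
          cases l2 with
          | nil => exact absurd rfl h2
          | cons x l => exact ⟨x, rfl⟩
        obtain ⟨b, hb⟩ : ∃ b, l2.getLast? = some b :=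
          ⟨l2.getLast h2, List.getLast?_eq_some_getLast h2⟩
        have h4 := hP.portion 1 g a b l1 l2 l3 h1 ha hb
        have h5 : w2.prod = a⁻¹ * b := by
          rw [← h3, ← h4, hprod]
        rw [h5, ← hshift, h4, h3]
      inv_word := by
        intro g
        have h1 := hshift g 1
        rw [mul_one] at h1
        rw [← h1, hP.reverse 1 g, letters_reverse]
      word_one := by
        have h1 : P 1 1 = [1] := by
          refine hP.portion 1 1 1 1 [] [1] (P 1 1).tail ?_ rfl rfl
          obtain ⟨l, hl⟩ := hcons 1 1
          rw [hl]
          rfl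
        rw [h1]
        rfl }
  obtain ⟨N, hN0, hNinv, hNmul, hN⟩ := Pool.Agent.H27Path.main W
  have hmem : IsAlphaMetric P (4 * Real.sqrt (Fintype.card G)) := by
    refine ⟨fun x y => N (x⁻¹ * y), ⟨?_, ?_, ?_⟩, ?_⟩
    · intro x y
      rw [hN0, inv_mul_eq_one]
    · intro x y
      show N (x⁻¹ * y) = N (y⁻¹ * x)
      rw [← hNinv (x⁻¹ * y)]
      congr 1
      group
    · intro x y z
      have := hNmul (x⁻¹ * y) (y⁻¹ * z)
      have h2 : x⁻¹ * y * (y⁻¹ * z) = x⁻¹ * z := by group
      rw [h2] at this
      exact this
    · intro u v
      rw [pathLength_eq, hshift]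
      exact hN (u⁻¹ * v)
  refine ⟨hmem, csInf_le ⟨1, fun α hα => hα.1⟩ ⟨?_, hmem⟩⟩
  have h1 : (1 : ℝ) ≤ Real.sqrt (Fintype.card G) := by
    rw [Real.one_le_sqrt]
    exact_mod_cast Fintype.card_pos
  linarith

end Pool.Agent.Results.MP_8f0578_co.SqrtUpperBound
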